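import Pool.Agent.H84.PsCC

namespace Pool.Agent.Results.MP_ea20df_gt.Oxt

open Set Cardinal TopologicalSpace Pool.Agent.H84.PsCC

universe u

theorem result (X : Type u) [TopologicalSpace X] [T35Space X] (hX : LocPseudocompact X)
    (h : ∀ U : Set X, IsOpen U → U.Nonempty → ∃ V : Set X, IsOpen V ∧ V.Nonempty ∧ V ⊆ U ∧
      (SmallPiWeight V ∨ SmallPiNt V ∨ AlmostP V)) : Oxtoby X :=
  oxtoby hX h

end Pool.Agent.Results.MP_ea20df_gt.Oxt
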