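import Pool.Agent.H84.PsCC2

namespace Pool.Agent.Results.MP_ea20df_gt.Telg

open Set Cardinal TopologicalSpace Pool.Agent.H84.PsCC

universe u

theorem result (X : Type u) [TopologicalSpace X] [T35Space X] (hX : LocPseudocompact X)
    (h : (∃ W : Set (Set X), IsTopologicalBasis W ∧ #W ≤ continuum) ∨ SmallNtCozero X) :
    Telgarsky X :=
  h.elim (fun ⟨_, hW, hc⟩ => telgarsky hX hW hc) (telgarsky2 hX)

end Pool.Agent.Results.MP_ea20df_gt.Telg
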